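import Mathlib

/-! Finite continued fractions as functions of the tail. -/

set_option autoImplicit false

namespace Pool.Agent.HS37.GG

open Set

/-- `phi [a₁, …, a_n] τ = 1/(a₁ + 1/(a₂ + ⋯ 1/(a_n + τ)))` -/
noncomputable def phi : List ℕ → ℝ → ℝ
  | [], τ => τ
  | a :: L, τ => 1 / ((a : ℝ) + phi L τ)

lemma phi_append (L M : List ℕ) (τ : ℝ) : phi (L ++ M) τ = phi L (phi M τ) := by
  induction L with
  | nil => rfl
  | cons a L ih => simp only [List.cons_append, phi, ih]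

lemma phi_Icc {L : List ℕ} (hL : ∀ a ∈ L, 1 ≤ a) {τ : ℝ} (h0 : 0 ≤ τ) (h1 : τ ≤ 1) :
    0 ≤ phi L τ ∧ phi L τ ≤ 1 := by
  induction L with
  | nil => exact ⟨h0, h1⟩
  | cons a L ih =>
    have ih := ih (fun b hb => hL b (List.mem_cons_of_mem _ hb))
    have ha : (1 : ℝ) ≤ a := by exact_mod_cast hL a List.mem_cons_self
    simp only [phi]
    constructor
    · exact div_nonneg zero_le_one (by linarith)
    · rw [div_le_one (by linarith)]; linarith

lemma phi_pos {L : List ℕ} (hL : ∀ a ∈ L, 1 ≤ a) (hne : L ≠ []) {τ : ℝ} (h0 : 0 ≤ τ) (h1 : τ ≤ 1) :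
    0 < phi L τ := by
  cases L with
  | nil => exact absurd rfl hne
  | cons a L =>
    have h := phi_Icc (fun b hb => hL b (List.mem_cons_of_mem _ hb)) h0 h1
    have ha : (1 : ℝ) ≤ a := by exact_mod_cast hL a List.mem_cons_self
    simp only [phi]
    exact div_pos one_pos (by linarith)

lemma phi_pos' {L : List ℕ} (hL : ∀ a ∈ L, 1 ≤ a) {τ : ℝ} (h0 : 0 < τ) (h1 : τ ≤ 1) :
    0 < phi L τ := by
  by_cases hne : L = []
  · subst hne; exact h0
  · exact phi_pos hL hne h0.le h1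

lemma phi_lt_one {L : List ℕ} (hL : ∀ a ∈ L, 1 ≤ a) (hne : L ≠ []) {τ : ℝ} (h0 : 0 < τ) (h1 : τ ≤ 1) :
    phi L τ < 1 := by
  cases L with
  | nil => exact absurd rfl hne
  | cons a L =>
    have h := phi_pos' (fun b hb => hL b (List.mem_cons_of_mem _ hb)) h0 h1
    have ha : (1 : ℝ) ≤ a := by exact_mod_cast hL a List.mem_cons_self
    simp only [phi]
    rw [div_lt_one (by linarith)]; linarith

lemma phi_Ioo {L : List ℕ} (hL : ∀ a ∈ L, 1 ≤ a) {τ : ℝ} (h0 : 0 < τ) (h1 : τ < 1) :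
    0 < phi L τ ∧ phi L τ < 1 := by
  by_cases hne : L = []
  · subst hne; exact ⟨h0, h1⟩
  · exact ⟨phi_pos' hL h0 h1.le, phi_lt_one hL hne h0 h1.le⟩

lemma phi_continuousOn {L : List ℕ} (hL : ∀ a ∈ L, 1 ≤ a) : ContinuousOn (phi L) (Icc 0 1) := by
  induction L with
  | nil => exact continuousOn_id
  | cons a L ih =>
    have ih := ih (fun b hb => hL b (List.mem_cons_of_mem _ hb))
    have ha : (1 : ℝ) ≤ a := by exact_mod_cast hL a List.mem_cons_self
    simp only [phi]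
    refine ContinuousOn.div continuousOn_const (continuousOn_const.add ih) ?_
    intro τ hτ
    have h := phi_Icc (fun b hb => hL b (List.mem_cons_of_mem _ hb)) hτ.1 hτ.2
    linarith [h.1]

/-- the Gauss map -/
noncomputable abbrev T : ℝ → ℝ := fun y : ℝ => Int.fract (1 / y)

lemma T_inv (a : ℕ) {w : ℝ} (h0 : 0 < w) (h1 : w < 1) : T (1 / ((a : ℝ) + w)) = w := by
  have e : (1 : ℝ) / (1 / ((a : ℝ) + w)) = a + w := by rw [one_div_one_div]
  show Int.fract (1 / (1 / ((a : ℝ) + w))) = w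
  rw [e, Int.fract_natCast_add]
  exact Int.fract_eq_self.2 ⟨h0.le, h1⟩

lemma floor_inv (a : ℕ) {w : ℝ} (h0 : 0 < w) (h1 : w < 1) : ⌊1 / (1 / ((a : ℝ) + w))⌋ = a := by
  have e : (1 : ℝ) / (1 / ((a : ℝ) + w)) = a + w := by rw [one_div_one_div]
  rw [e, Int.floor_natCast_add, Int.floor_eq_zero_iff.2 ⟨h0.le, h1⟩, add_zero]

lemma T_iter_phi {L : List ℕ} (hL : ∀ a ∈ L, 1 ≤ a) {τ : ℝ} (h0 : 0 < τ) (h1 : τ < 1) :
    T^[L.length] (phi L τ) = τ := by
  induction L with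
  | nil => rfl
  | cons a L ih =>
    have hL' : ∀ b ∈ L, 1 ≤ b := fun b hb => hL b (List.mem_cons_of_mem _ hb)
    have h := phi_Ioo hL' h0 h1
    rw [List.length_cons, Function.iterate_succ_apply]
    show T^[L.length] (T (1 / ((a : ℝ) + phi L τ))) = τ
    rw [T_inv a h.1 h.2, ih hL']

lemma floor_iter_phi {L : List ℕ} (hL : ∀ a ∈ L, 1 ≤ a) {τ : ℝ} (h0 : 0 < τ) (h1 : τ < 1) :
    ∀ (n : ℕ) (hn : n < L.length), ⌊1 / T^[n] (phi L τ)⌋ = ((L[n] : ℕ) : ℤ) := by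
  induction L with
  | nil => intro n hn; exact absurd hn (Nat.not_lt_zero _)
  | cons a L ih =>
    have hL' : ∀ b ∈ L, 1 ≤ b := fun b hb => hL b (List.mem_cons_of_mem _ hb)
    have h := phi_Ioo hL' h0 h1
    intro n hn
    cases n with
    | zero =>
      show ⌊1 / (1 / ((a : ℝ) + phi L τ))⌋ = (a : ℤ)
      exact floor_inv a h.1 h.2
    | succ n =>
      rw [Function.iterate_succ_apply]
      show ⌊1 / T^[n] (T (1 / ((a : ℝ) + phi L τ)))⌋ = _
      rw [T_inv a h.1 h.2]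
      exact ih hL' n (by simpa using hn)

/-- A number in all cylinders of an increasing sequence of lists has all tails in `(0,1)`. -/
lemma tails {X : ℕ → List ℕ} (hX : ∀ j, ∀ a ∈ X j, 1 ≤ a)
    (hext : ∀ j, ∃ b : List ℕ, b ≠ [] ∧ X (j + 1) = X j ++ b) {g : ℝ}
    (hg : ∀ j, ∃ τ, 0 ≤ τ ∧ τ ≤ 1 ∧ g = phi (X j) τ) (j : ℕ) :
    ∃ τ, 0 < τ ∧ τ < 1 ∧ g = phi (X j) τ := by
  obtain ⟨b, hb, hb2⟩ := hext j
  obtain ⟨c, hc, hc2⟩ := hext (j + 1)
  obtain ⟨τ, h0, h1, hτ⟩ := hg (j + 1 + 1)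
  have hbm : ∀ a ∈ b, 1 ≤ a := fun a ha => hX (j + 1) a (by rw [hb2]; exact List.mem_append_right _ ha)
  have hcm : ∀ a ∈ c, 1 ≤ a := fun a ha => hX (j + 1 + 1) a (by rw [hc2]; exact List.mem_append_right _ ha)
  have hc3 := phi_pos hcm hc h0 h1
  have hc4 := phi_Icc hcm h0 h1
  refine ⟨phi b (phi c τ), phi_pos hbm hb hc3.le hc4.2, phi_lt_one hbm hb hc3 hc4.2, ?_⟩
  rw [hτ, hc2, hb2, phi_append, phi_append]

/-- If the quotients appended at step `j` are at least `m j → ∞`, then the quotients of the number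
tend to infinity. -/
lemma tendsto_floor {X : ℕ → List ℕ} (hX : ∀ j, ∀ a ∈ X j, 1 ≤ a) (m : ℕ → ℕ) (hm : Filter.Tendsto m Filter.atTop Filter.atTop)
    (hext : ∀ j, ∃ b : List ℕ, b ≠ [] ∧ (∀ a ∈ b, m j ≤ a) ∧ X (j + 1) = X j ++ b) {g : ℝ}
    (hg : ∀ j, ∃ τ, 0 ≤ τ ∧ τ ≤ 1 ∧ g = phi (X j) τ) :
    Filter.Tendsto (fun n : ℕ => ⌊1 / (T^[n] g)⌋) Filter.atTop Filter.atTop := by
  rw [Filter.tendsto_atTop]
  intro M
  -- a step from which on all appended quotients are `≥ M`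
  obtain ⟨j0, hj0⟩ := Filter.eventually_atTop.1 (hm.eventually_ge_atTop M.toNat)
  have hlen : ∀ j, j ≤ (X j).length := by
    intro j
    induction j with
    | zero => exact Nat.zero_le _
    | succ j ih =>
      obtain ⟨b, hb, _, hb2⟩ := hext j
      rw [hb2, List.length_append]
      have := List.length_pos_iff.2 hb
      omega
  have hrest : ∀ i, ∃ r : List ℕ, (∀ a ∈ r, M.toNat ≤ a) ∧ X (j0 + i) = X j0 ++ r := by
    intro i
    induction i with
    | zero => exact ⟨[], by simp, by simp⟩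
    | succ i ih =>
      obtain ⟨r, hr1, hr2⟩ := ih
      obtain ⟨b, _, hb1, hb2⟩ := hext (j0 + i)
      refine ⟨r ++ b, ?_, ?_⟩
      · intro a ha
        rcases List.mem_append.1 ha with h | h
        · exact hr1 a h
        · exact (hj0 _ (by omega)).trans (hb1 a h)
      · rw [← add_assoc, hb2, hr2, List.append_assoc]
  rw [Filter.eventually_atTop]
  refine ⟨(X j0).length, fun n hn => ?_⟩
  obtain ⟨r, hr1, hr2⟩ := hrest (n + 1)
  have hlen2 : n < (X (j0 + (n + 1))).length := by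
    have := hlen (j0 + (n + 1)); omega
  obtain ⟨τ, h0, h1, hτ⟩ := tails hX (fun j => by
    obtain ⟨b, hb, _, hb2⟩ := hext j; exact ⟨b, hb, hb2⟩) hg (j0 + (n + 1))
  have h := floor_iter_phi (hX (j0 + (n + 1))) h0 h1 n hlen2
  rw [← hτ] at h
  have h2 : M.toNat ≤ (X (j0 + (n + 1)))[n] := by
    have h3 : (X (j0 + (n + 1)))[n] ∈ r := by
      have h4 : (X (j0 + (n + 1)))[n] = (X j0 ++ r)[n]'(by rw [← hr2]; exact hlen2) := by
        congr 1
      rw [h4, List.getElem_append_right hn]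
      exact List.getElem_mem _
    exact hr1 _ h3
  show M ≤ ⌊1 / T^[n] g⌋
  rw [h]
  have := Int.self_le_toNat M
  have h5 : ((M.toNat : ℕ) : ℤ) ≤ (((X (j0 + (n + 1)))[n] : ℕ) : ℤ) := by exact_mod_cast h2
  omega

end Pool.Agent.HS37.GG
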