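import Pool.Agent.HS37.GG.Step2

/-! The irrational case. -/

set_option autoImplicit false

namespace Pool.Agent.HS37.GG

open Set Filter Topology

/-- the first quotients of an irrational number -/
lemma exists_start {x : ℝ} (hx : Irrational x) (h0 : 0 < x) (h1 : x < 1) (j : ℕ) :
    ∃ (B : Br) (τ : ℝ), B.Good ∧ B.e = 1 ∧ 2 ^ j ≤ B.q ∧ Irrational τ ∧ 0 < τ ∧ τ < 1 ∧ phi B.L τ = x := by
  have key : ∀ (B : Br) (τ : ℝ), B.Good → Irrational τ → 0 < τ → τ < 1 → phi B.L τ = x →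
      ∃ (a : ℕ) (τ' : ℝ), 1 ≤ a ∧ Irrational τ' ∧ 0 < τ' ∧ τ' < 1 ∧ phi (B.app a).L τ' = x := by
    intro B τ _ hirr h0 h1 hval
    have hirr' : Irrational (1 / τ) := by
      rw [one_div]; exact hirr.inv
    have h2 : 1 < 1 / τ := by rw [lt_div_iff₀ h0]; linarith
    have hirr2 : Irrational (1 / τ - ⌊1 / τ⌋₊) := hirr'.sub_natCast _
    have hfl := Nat.floor_le (show 0 ≤ 1 / τ by linarith)
    have hfl2 := Nat.lt_floor_add_one (1 / τ)
    refine ⟨⌊1 / τ⌋₊, 1 / τ - ⌊1 / τ⌋₊, ?_, hirr2, ?_, by linarith, ?_⟩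
    · exact Nat.one_le_floor_iff _ |>.2 h2.le
    · rcases (sub_nonneg.2 hfl).eq_or_lt with h | h
      · exact absurd h.symm hirr2.ne_zero
      · exact h
    · show phi (B.L ++ [⌊1 / τ⌋₊]) (1 / τ - ⌊1 / τ⌋₊) = x
      rw [phi_append]
      have e1 : phi [⌊1 / τ⌋₊] (1 / τ - ⌊1 / τ⌋₊) = τ := by
        show 1 / ((⌊1 / τ⌋₊ : ℝ) + (1 / τ - ⌊1 / τ⌋₊)) = τ
        rw [add_sub_cancel, one_div_one_div]
      rw [e1, hval]
  induction j with
  | zero => exact ⟨Br.nil, x, Br.nil_good, rfl, le_rfl, hx, h0, h1, rfl⟩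
  | succ j ih =>
    obtain ⟨B, τ, hB, he, hq, hirr, h0, h1, hval⟩ := ih
    obtain ⟨a, τ', ha, hirr', h0', h1', hval'⟩ := key B τ hB hirr h0 h1 hval
    have hB' := hB.app ha
    obtain ⟨b, τ'', hb, hirr'', h0'', h1'', hval''⟩ := key (B.app a) τ' hB' hirr' h0' h1' hval'
    refine ⟨(B.app a).app b, τ'', hB'.app hb, ?_, ?_, hirr'', h0'', h1'', hval''⟩
    · show -(-B.e) = 1
      rw [he]; ring
    · show 2 ^ (j + 1) ≤ b * (a * B.q + B.q') + B.q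
      have e1 : B.q ≤ a * B.q := Nat.le_mul_of_pos_left _ ha
      have e2 : a * B.q + B.q' ≤ b * (a * B.q + B.q') := Nat.le_mul_of_pos_left _ hb
      rw [pow_succ]
      omega

/-- the start of the algorithm -/
lemma exists_inv {x : ℝ} (hx : Irrational x) (h0 : 0 < x) (h1 : x < 1) : ∃ B : Br, Inv x 0 Br.nil B := by
  obtain ⟨B, τ, hB, he, hq, _, hτ0, hτ1, hval⟩ := exists_start hx h0 h1 3
  have h2 := hB.val τ hτ0.le hτ1.le
  rw [hval, he, one_mul] at h2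
  have hq8 : (8 : ℝ) ≤ B.q := by exact_mod_cast (by simpa using hq : 8 ≤ B.q)
  have hq' : (0 : ℝ) ≤ B.q' := Nat.cast_nonneg _
  have e1 : Br.nil.e * (x - Br.nil.c - B.c) = τ / (B.q * (B.q + τ * B.q')) := by
    show (1 : ℝ) * (x - 0 - B.c) = _
    rw [h2]; ring
  have hden : (0 : ℝ) < B.q + τ * B.q' := by
    have : 0 ≤ τ * B.q' := by positivity
    linarith
  have h3 : (1 : ℝ) * B.q * (τ / (B.q * (B.q + τ * B.q'))) ≤ 1 / 8 := by
    have : (1 : ℝ) * B.q * (τ / (B.q * (B.q + τ * B.q'))) = τ / (B.q + τ * B.q') := by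
      have : (B.q : ℝ) ≠ 0 := by linarith
      field_simp
    rw [this]
    have h4 : 0 ≤ τ * B.q' := by positivity
    rw [div_le_iff₀ hden]
    linarith
  have hqn : ((Br.nil.q : ℕ) : ℝ) = 1 := by simp [Br.nil]
  refine ⟨B, ⟨Br.nil_good, hB, ?_, ?_, ?_, ?_⟩⟩
  · show 1 ≤ B.q
    exact hB.q_pos
  · rw [e1]; positivity
  · rw [e1, hqn]; push_cast; linarith
  · intro _
    rw [e1, hqn]; push_cast; linarith

/-- the sequence of the algorithm -/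
lemma exists_seq {x : ℝ} (hx : Irrational x) (h0 : 0 < x) (h1 : x < 1) :
    ∃ C : ℕ → Br, (∀ k, Inv x k (C k) (C (k + 1))) ∧ ∀ k, Ext ((k + 2) / 2) (C k) (C (k + 2)) := by
  obtain ⟨B, hB⟩ := exists_inv hx h0 h1
  let S : ℕ → Type := fun k => {s : Br × Br // Inv x k s.1 s.2}
  have hstep : ∀ k (s : S k), ∃ A' : Br, Inv x (k + 1) s.1.2 A' ∧ Ext ((k + 2) / 2) s.1.1 A' :=
    fun k s => step hx s.2
  choose nxt hn1 hn2 using hstep
  let f : ∀ k, S k := fun k => Nat.rec ⟨(Br.nil, B), hB⟩ (fun k s => ⟨(s.1.2, nxt k s), hn1 k s⟩) k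
  have hf : ∀ k, (f (k + 1)).1 = ((f k).1.2, nxt k (f k)) := fun k => rfl
  refine ⟨fun k => (f k).1.1, fun k => ?_, fun k => ?_⟩
  · have h := (f k).2
    have e : (f (k + 1)).1.1 = (f k).1.2 := by rw [hf]
    show Inv x k (f k).1.1 (f (k + 1)).1.1
    rw [e]
    exact h
  · have e : (f (k + 2)).1.1 = nxt k (f k) := by
      have e1 : (f (k + 1 + 1)).1.1 = (f (k + 1)).1.2 := by rw [hf]
      show (f (k + 1 + 1)).1.1 = _
      rw [e1, hf]
    show Ext ((k + 2) / 2) (f k).1.1 (f (k + 2)).1.1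
    rw [e]
    exact hn2 k (f k)

lemma Ext.trans_phi {m : ℕ} {B B' : Br} (h : Ext m B B') (hB' : B'.Good) {g : ℝ}
    (hg : ∃ τ, 0 ≤ τ ∧ τ ≤ 1 ∧ g = phi B'.L τ) : ∃ τ, 0 ≤ τ ∧ τ ≤ 1 ∧ g = phi B.L τ := by
  obtain ⟨b, _, _, hb⟩ := h
  obtain ⟨τ, h0, h1, hτ⟩ := hg
  have hbm : ∀ a ∈ b, 1 ≤ a := fun a ha => hB'.pos a (by rw [hb]; exact List.mem_append_right _ ha)
  have h := phi_Icc hbm h0 h1
  exact ⟨phi b τ, h.1, h.2, by rw [hτ, hb, phi_append]⟩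

lemma half_tendsto (i : ℕ) : Tendsto (fun j : ℕ => (2 * j + i + 2) / 2) atTop atTop := by
  apply tendsto_atTop_mono (fun j => ?_) tendsto_id
  simp only [id]
  omega

theorem irrational_case {x : ℝ} (hx : Irrational x) (h0 : 0 < x) (h1 : x < 1) :
    ∃ g₁ g₂ : ℝ, g₁ ∈ Ioo (0 : ℝ) 1 ∧ g₂ ∈ Ioo (0 : ℝ) 1 ∧
      Tendsto (fun n : ℕ => ⌊1 / (T^[n] g₁)⌋) atTop atTop ∧
      Tendsto (fun n : ℕ => ⌊1 / (T^[n] g₂)⌋) atTop atTop ∧ x = g₁ + g₂ := by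
  obtain ⟨C, hC1, hC2⟩ := exists_seq hx h0 h1
  have hgood : ∀ k, (C k).Good := fun k => (hC1 k).gA
  -- nested compact sets
  let K : ℕ → Set (ℝ × ℝ) := fun j => {w | (∃ τ, 0 ≤ τ ∧ τ ≤ 1 ∧ w.1 = phi (C (2 * j)).L τ) ∧
    (∃ τ, 0 ≤ τ ∧ τ ≤ 1 ∧ w.2 = phi (C (2 * j + 1)).L τ) ∧ w.1 + w.2 = x}
  have hKeq : ∀ j, K j = ((phi (C (2 * j)).L '' Icc 0 1) ×ˢ (phi (C (2 * j + 1)).L '' Icc 0 1)) ∩
      {w : ℝ × ℝ | w.1 + w.2 = x} := by
    intro j
    ext w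
    simp only [K, mem_ofPred_eq, mem_inter_iff, mem_prod, mem_image, mem_Icc]
    constructor
    · rintro ⟨⟨τ, a, b, c⟩, ⟨σ, a', b', c'⟩, h⟩
      exact ⟨⟨⟨τ, ⟨a, b⟩, c.symm⟩, ⟨σ, ⟨a', b'⟩, c'.symm⟩⟩, h⟩
    · rintro ⟨⟨⟨τ, ⟨a, b⟩, c⟩, ⟨σ, ⟨a', b'⟩, c'⟩⟩, h⟩
      exact ⟨⟨τ, a, b, c.symm⟩, ⟨σ, a', b', c'.symm⟩, h⟩
  have hKcomp : ∀ j, IsCompact (K j) := by
    intro j
    rw [hKeq]
    apply IsCompact.inter_right
    · exact (isCompact_Icc.image_of_continuousOn (phi_continuousOn (hgood _).pos)).prod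
        (isCompact_Icc.image_of_continuousOn (phi_continuousOn (hgood _).pos))
    · exact isClosed_eq (continuous_fst.add continuous_snd) continuous_const
  have hKanti : ∀ j, K (j + 1) ⊆ K j := by
    intro j w hw
    obtain ⟨h2, h3, h4⟩ := hw
    refine ⟨(hC2 (2 * j)).trans_phi (hgood _) ?_, (hC2 (2 * j + 1)).trans_phi (hgood _) ?_, h4⟩
    · have : 2 * (j + 1) = 2 * j + 2 := by ring
      rw [← this]; exact h2
    · have : 2 * (j + 1) + 1 = 2 * j + 1 + 2 := by ring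
      rw [← this]; exact h3
  have hKne : ∀ j, (K j).Nonempty := by
    intro j
    have hI := hC1 (2 * j)
    set A := C (2 * j) with hA
    set B := C (2 * j + 1) with hB
    set t := x - A.c - B.c with ht
    have hq : (1 : ℝ) ≤ A.q := by exact_mod_cast hI.gA.q_pos
    have hs : (A.q : ℝ) ≤ B.q := by exact_mod_cast hI.q_le
    have hq' : (A.q' : ℝ) ≤ A.q := by exact_mod_cast hI.gA.q_le
    have hq'0 : (0 : ℝ) ≤ A.q' := Nat.cast_nonneg _
    have hu := hI.pos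
    have hrho := hI.rho
    rw [← ht] at hu hrho
    set u := A.e * t with hu'
    have htu : t = A.e * u := by
      rw [hu', ← mul_assoc, hI.gA.e_sq, one_mul]
    -- `u = τ / (q (q + τ q'))`
    have hqq : (A.q : ℝ) * A.q * u * 4 ≤ 1 := by
      have h2 : (A.q : ℝ) * A.q * u ≤ A.q * B.q * u :=
        mul_le_mul_of_nonneg_right (mul_le_mul_of_nonneg_left hs (by linarith)) hu.le
      have h3 : (A.q : ℝ) * B.q * u * 4 ≤ A.q * B.q * u * (((2 * j : ℕ) : ℝ) + 4) :=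
        mul_le_mul_of_nonneg_left (by
          have : (0 : ℝ) ≤ ((2 * j : ℕ) : ℝ) := Nat.cast_nonneg _
          linarith) (by
          have : (0 : ℝ) ≤ B.q := by linarith
          positivity)
      linarith
    have hden : 0 < 1 - A.q * A.q' * u := by
      have : (A.q : ℝ) * A.q' * u ≤ A.q * A.q * u :=
        mul_le_mul_of_nonneg_right (mul_le_mul_of_nonneg_left hq' (by linarith)) hu.le
      linarith
    have hqq0 : 0 < (A.q : ℝ) * A.q * u := by positivity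
    set τ := A.q * A.q * u / (1 - A.q * A.q' * u) with hτ
    have hτ0 : 0 ≤ τ := by positivity
    have hτ1 : τ ≤ 1 := by
      rw [hτ, div_le_one hden]
      have : (A.q : ℝ) * A.q' * u ≤ A.q * A.q * u :=
        mul_le_mul_of_nonneg_right (mul_le_mul_of_nonneg_left hq' (by linarith)) hu.le
      linarith
    refine ⟨(A.c + t, B.c), ⟨τ, hτ0, hτ1, ?_⟩, ⟨0, le_rfl, zero_le_one, ?_⟩, ?_⟩
    · show A.c + t = phi A.L τ
      rw [hI.gA.val τ hτ0 hτ1, htu]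
      congr 1
      rw [mul_div_assoc]
      congr 1
      have hτd : τ * (1 - A.q * A.q' * u) = A.q * A.q * u := by
        rw [hτ, div_mul_cancel₀ _ hden.ne']
      have h5 : (A.q : ℝ) + τ * A.q' = A.q / (1 - A.q * A.q' * u) := by
        rw [eq_div_iff hden.ne']
        linear_combination (A.q' : ℝ) * hτd
      have hq0 : (A.q : ℝ) ≠ 0 := by linarith
      have hd0 := hden.ne'
      rw [h5]
      have h6 : (A.q : ℝ) * (A.q / (1 - A.q * A.q' * u)) = A.q * A.q / (1 - A.q * A.q' * u) := by ring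
      rw [h6, hτ, div_div_div_cancel_right₀ hd0]
      field_simp
    · show B.c = phi B.L 0
      rw [hI.gB.val 0 le_rfl zero_le_one]
      simp
    · show A.c + t + B.c = x
      rw [ht]; ring
  obtain ⟨w, hw⟩ := IsCompact.nonempty_iInter_of_sequence_nonempty_isCompact_isClosed K hKanti hKne
    (hKcomp 0) (fun j => (hKcomp j).isClosed)
  rw [mem_iInter] at hw
  have hw1 : ∀ j, ∃ τ, 0 ≤ τ ∧ τ ≤ 1 ∧ w.1 = phi (C (2 * j)).L τ := fun j => (hw j).1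
  have hw2 : ∀ j, ∃ τ, 0 ≤ τ ∧ τ ≤ 1 ∧ w.2 = phi (C (2 * j + 1)).L τ := fun j => (hw j).2.1
  have hw3 : w.1 + w.2 = x := (hw 0).2.2
  have hext1 : ∀ j, ∃ b : List ℕ, b ≠ [] ∧ (∀ a ∈ b, (2 * j + 0 + 2) / 2 ≤ a) ∧
      (C (2 * (j + 1))).L = (C (2 * j)).L ++ b := by
    intro j
    obtain ⟨b, h2, h3, h4⟩ := hC2 (2 * j)
    exact ⟨b, h2, h3, h4⟩
  have hext2 : ∀ j, ∃ b : List ℕ, b ≠ [] ∧ (∀ a ∈ b, (2 * j + 1 + 2) / 2 ≤ a) ∧
      (C (2 * (j + 1) + 1)).L = (C (2 * j + 1)).L ++ b := by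
    intro j
    obtain ⟨b, h2, h3, h4⟩ := hC2 (2 * j + 1)
    exact ⟨b, h2, h3, h4⟩
  have ht1 := tails (X := fun j => (C (2 * j)).L) (fun j => (hgood _).pos)
    (fun j => by obtain ⟨b, h2, _, h4⟩ := hext1 j; exact ⟨b, h2, h4⟩) hw1 0
  have ht2 := tails (X := fun j => (C (2 * j + 1)).L) (fun j => (hgood _).pos)
    (fun j => by obtain ⟨b, h2, _, h4⟩ := hext2 j; exact ⟨b, h2, h4⟩) hw2 0
  refine ⟨w.1, w.2, ?_, ?_, ?_, ?_, hw3.symm⟩
  · obtain ⟨τ, h2, h3, h4⟩ := ht1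
    rw [h4]
    exact phi_Ioo (hgood _).pos h2 h3
  · obtain ⟨τ, h2, h3, h4⟩ := ht2
    rw [h4]
    exact phi_Ioo (hgood _).pos h2 h3
  · exact tendsto_floor (X := fun j => (C (2 * j)).L) (fun j => (hgood _).pos)
      (fun j => (2 * j + 0 + 2) / 2) (half_tendsto 0) hext1 hw1
  · exact tendsto_floor (X := fun j => (C (2 * j + 1)).L) (fun j => (hgood _).pos)
      (fun j => (2 * j + 1 + 2) / 2) (half_tendsto 1) hext2 hw2

end Pool.Agent.HS37.GG
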