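import Pool.Agent.HS37.GG.Irr

/-! The rational case. -/

set_option autoImplicit false

namespace Pool.Agent.HS37.GG

open Set Filter Topology

lemma Br.Good.c_eq {B : Br} (h : B.Good) : B.c = phi B.L 0 := by
  rw [h.val 0 le_rfl zero_le_one]; simp

lemma exists_rat (v : ℕ) : ∀ u : ℕ, 0 < u → u < v → ∀ B : Br, B.Good →
    ∃ B' : Br, B'.Good ∧ B'.e = -1 ∧ B'.c = phi B.L ((u : ℝ) / v) := by
  induction v using Nat.strong_induction_on with
  | _ v ih =>
    intro u hu huv B hB
    have hdiv := Nat.div_add_mod v u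
    set a := v / u with ha
    set r := v % u with hr
    have hru : r < u := Nat.mod_lt _ hu
    have ha1 : 1 ≤ a := (Nat.one_le_div_iff hu).2 huv.le
    have hu0 : (0 : ℝ) < u := by exact_mod_cast hu
    have hv : (v : ℝ) = u * a + r := by exact_mod_cast hdiv.symm
    rcases Nat.eq_zero_or_pos r with h0 | h0
    · -- `u / v = 1 / a`
      have e1 : (u : ℝ) / v = 1 / a := by
        rw [hv, h0]
        have : (0 : ℝ) < a := by exact_mod_cast ha1
        push_cast
        field_simp
        ring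
      have ha2 : 2 ≤ a := by
        by_contra h
        have : a = 1 := by omega
        rw [this, h0] at hdiv
        omega
      rcases hB.e_cases with he | he
      · have hB' := hB.app (a := a) (by omega)
        refine ⟨B.app a, hB', ?_, ?_⟩
        · show -B.e = -1
          rw [he]
        · rw [hB'.c_eq, e1]
          show phi (B.L ++ [a]) 0 = _
          rw [phi_append]
          have : phi [a] 0 = 1 / (a : ℝ) := by
            show 1 / ((a : ℝ) + 0) = _
            rw [add_zero]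
          rw [this]
      · have hB1 := hB.app (a := a - 1) (by omega)
        have hB' := hB1.app (a := 1) le_rfl
        refine ⟨(B.app (a - 1)).app 1, hB', ?_, ?_⟩
        · show -(-B.e) = -1
          rw [he]; ring
        · rw [hB'.c_eq, e1]
          show phi ((B.L ++ [a - 1]) ++ [1]) 0 = _
          rw [phi_append, phi_append]
          have : phi [a - 1] (phi [1] 0) = 1 / (a : ℝ) := by
            show 1 / (((a - 1 : ℕ) : ℝ) + 1 / (((1 : ℕ) : ℝ) + 0)) = _
            rw [Nat.cast_sub (by omega)]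
            push_cast
            congr 1
            ring
          rw [this]
    · have hB1 := hB.app ha1
      obtain ⟨B', h1, h2, h3⟩ := ih u huv r h0 hru (B.app a) hB1
      refine ⟨B', h1, h2, ?_⟩
      rw [h3]
      show phi (B.L ++ [a]) _ = _
      rw [phi_append]
      congr 1
      show 1 / ((a : ℝ) + (r : ℝ) / u) = _
      rw [hv]
      have : (0 : ℝ) < a := by exact_mod_cast ha1
      have : (0 : ℝ) < u * a + r := by positivity
      field_simp

/-- every rational number in `(0,1]` is the value of a branch with sign `-1` -/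
lemma exists_rat' {x : ℝ} (hx : ∃ r : ℚ, (r : ℝ) = x) (h0 : 0 < x) (h1 : x ≤ 1) :
    ∃ B : Br, B.Good ∧ B.e = -1 ∧ B.c = x := by
  rcases h1.eq_or_lt with h | h
  · refine ⟨Br.nil.app 1, Br.nil_good.app le_rfl, rfl, ?_⟩
    rw [h]
    show (0 : ℝ) + 1 / (((1 : ℕ) : ℝ) * ((1 * 1 + 0 : ℕ) : ℝ)) = 1
    norm_num
  · obtain ⟨r, hr⟩ := hx
    have hr0 : 0 < r := by
      have : (0 : ℝ) < (r : ℝ) := by rw [hr]; exact h0
      exact_mod_cast this
    have hr1 : r < 1 := by
      have : (r : ℝ) < 1 := by rw [hr]; exact h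
      exact_mod_cast this
    have hn : 0 < r.num := Rat.num_pos.2 hr0
    have hnd : r.num < r.den := Rat.num_lt_denom_iff.2 hr1
    obtain ⟨B, h2, h3, h4⟩ := exists_rat r.den r.num.toNat (by omega) (by omega) Br.nil Br.nil_good
    refine ⟨B, h2, h3, ?_⟩
    rw [h4]
    show ((r.num.toNat : ℕ) : ℝ) / r.den = x
    rw [← hr]
    have h5 : ((r.num.toNat : ℕ) : ℝ) = (r.num : ℝ) := by
      have : ((r.num.toNat : ℕ) : ℤ) = r.num := Int.toNat_of_nonneg hn.le
      exact_mod_cast this
    rw [h5]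
    conv_rhs => rw [← Rat.num_div_den r]
    push_cast
    rfl

/-- numbers with prescribed quotients -/
lemma exists_tails (A : ℕ → ℕ) (hA : ∀ n, 1 ≤ A n) :
    ∃ y : ℕ → ℝ, (∀ n, 0 < y n ∧ y n < 1) ∧ ∀ n, 1 / y n = A n + y (n + 1) := by
  let X : ℕ → List ℕ := fun j => (List.range j).map A
  have hX : ∀ j, ∀ a ∈ X j, 1 ≤ a := by
    intro j a ha
    obtain ⟨i, _, rfl⟩ := List.mem_map.1 ha
    exact hA i
  have hXs : ∀ j, X (j + 1) = X j ++ [A j] := by
    intro j
    simp only [X, List.range_succ, List.map_append, List.map_cons, List.map_nil]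
  have hlen : ∀ j, (X j).length = j := by
    intro j; simp [X]
  let K : ℕ → Set ℝ := fun j => phi (X j) '' Icc 0 1
  have hKcomp : ∀ j, IsCompact (K j) := fun j =>
    isCompact_Icc.image_of_continuousOn (phi_continuousOn (hX j))
  have hKanti : ∀ j, K (j + 1) ⊆ K j := by
    rintro j _ ⟨τ, hτ, rfl⟩
    have hm : ∀ a ∈ [A j], 1 ≤ a := by
      intro a ha; rw [List.mem_singleton] at ha; rw [ha]; exact hA j
    have h := phi_Icc hm hτ.1 hτ.2
    exact ⟨phi [A j] τ, h, by rw [hXs, phi_append]⟩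
  have hKne : ∀ j, (K j).Nonempty := fun j => ⟨_, 0, ⟨le_rfl, zero_le_one⟩, rfl⟩
  obtain ⟨g, hg⟩ := IsCompact.nonempty_iInter_of_sequence_nonempty_isCompact_isClosed K hKanti hKne
    (hKcomp 0) (fun j => (hKcomp j).isClosed)
  rw [mem_iInter] at hg
  have hg' : ∀ j, ∃ τ, 0 ≤ τ ∧ τ ≤ 1 ∧ g = phi (X j) τ := by
    intro j
    obtain ⟨τ, hτ, h⟩ := hg j
    exact ⟨τ, hτ.1, hτ.2, h.symm⟩
  have ht := tails hX (fun j => ⟨[A j], by simp, hXs j⟩) hg'
  have key : ∀ n, ∃ τ, 0 < τ ∧ τ < 1 ∧ T^[n] g = 1 / ((A n : ℝ) + τ) := by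
    intro n
    obtain ⟨τ, h0, h1, h⟩ := ht (n + 1)
    refine ⟨τ, h0, h1, ?_⟩
    rw [hXs, phi_append] at h
    have hm : ∀ a ∈ [A n], 1 ≤ a := by
      intro a ha; rw [List.mem_singleton] at ha; rw [ha]; exact hA n
    have h2 := phi_Ioo hm h0 h1
    have h3 := T_iter_phi (hX n) h2.1 h2.2
    rw [hlen, ← h] at h3
    exact h3
  refine ⟨fun n => T^[n] g, fun n => ?_, fun n => ?_⟩
  · obtain ⟨τ, h0, h1, h⟩ := key n
    have ha : (1 : ℝ) ≤ A n := by exact_mod_cast hA n
    simp only [h]
    exact ⟨by positivity, by rw [div_lt_one (by linarith)]; linarith⟩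
  · obtain ⟨τ, h0, h1, h⟩ := key n
    simp only [Function.iterate_succ_apply', h, T_inv (A n) h0 h1, one_div_one_div]

lemma iter_of_tails (A : ℕ → ℕ) (y : ℕ → ℝ) (hy : ∀ n, 0 < y n ∧ y n < 1)
    (hr : ∀ n, 1 / y n = A n + y (n + 1)) (n : ℕ) : T^[n] (y 0) = y n := by
  induction n with
  | zero => rfl
  | succ n ih =>
    rw [Function.iterate_succ_apply', ih]
    show Int.fract (1 / y n) = _
    rw [hr, Int.fract_natCast_add]
    exact Int.fract_eq_self.2 ⟨(hy _).1.le, (hy _).2⟩

lemma tendsto_of_tails (A : ℕ → ℕ) (y : ℕ → ℝ) (hy : ∀ n, 0 < y n ∧ y n < 1)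
    (hr : ∀ n, 1 / y n = A n + y (n + 1)) (hA : Tendsto A atTop atTop) :
    Tendsto (fun n : ℕ => ⌊1 / (T^[n] (y 0))⌋) atTop atTop := by
  have e : (fun n : ℕ => ⌊1 / (T^[n] (y 0))⌋) = fun n => ((A n : ℕ) : ℤ) := by
    funext n
    rw [iter_of_tails A y hy hr n, hr, Int.floor_natCast_add,
      Int.floor_eq_zero_iff.2 ⟨(hy _).1.le, (hy _).2⟩, add_zero]
  rw [e]
  exact tendsto_natCast_atTop_atTop.comp hA

theorem rational_case {x : ℝ} (hx : ∃ r : ℚ, (r : ℝ) = x) (h0 : 0 < x) (h1 : x ≤ 1) :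
    ∃ g₁ g₂ : ℝ, g₁ ∈ Ioo (0 : ℝ) 1 ∧ g₂ ∈ Ioo (0 : ℝ) 1 ∧
      Tendsto (fun n : ℕ => ⌊1 / (T^[n] g₁)⌋) atTop atTop ∧
      Tendsto (fun n : ℕ => ⌊1 / (T^[n] g₂)⌋) atTop atTop ∧ x = g₁ + g₂ := by
  obtain ⟨B, hB, he, hc⟩ := exists_rat' hx h0 h1
  set d := B.q with hd
  have hd1 : 1 ≤ d := hB.q_pos
  have hdR : (1 : ℝ) ≤ d := by exact_mod_cast hd1
  set D := d * d with hD
  have hD1 : 1 ≤ D := Nat.mul_le_mul hd1 hd1
  have hDR : (1 : ℝ) ≤ D := by exact_mod_cast hD1
  -- the quotients
  let A : ℕ → ℕ := fun n => if Even n then n + 1 else D * (n + 1)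
  let A' : ℕ → ℕ := fun n => if Even n then D * (n + 1) else n + 1
  have hAge : ∀ n, n + 1 ≤ A n := by
    intro n
    simp only [A]
    split_ifs
    · exact le_rfl
    · exact Nat.le_mul_of_pos_left _ hD1
  have hA'ge : ∀ n, n + 1 ≤ A' n := by
    intro n
    simp only [A']
    split_ifs
    · exact Nat.le_mul_of_pos_left _ hD1
    · exact le_rfl
  obtain ⟨y, hy, hr⟩ := exists_tails A (fun n => by have := hAge n; omega)
  -- the tails of the second number
  let z : ℕ → ℝ := fun n => if Even n then y n / D else D * y n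
  have hz : ∀ n, 1 / z n = A' n + z (n + 1) := by
    intro n
    have h2 := hr n
    have hy0 := (hy n).1
    rcases Nat.even_or_odd n with hn | hn
    · have hn1 : ¬ Even (n + 1) := by rw [Nat.even_add_one]; exact not_not.2 hn
      simp only [z, A, A', hn, hn1, if_true, if_false] at h2 ⊢
      rw [one_div_div, div_eq_mul_one_div, h2]
      push_cast
      ring
    · have hn0 : ¬ Even n := Nat.not_even_iff_odd.2 hn
      have hn1 : Even (n + 1) := hn.add_one
      simp only [z, A, A', hn0, hn1, if_true, if_false] at h2 ⊢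
      have hD0 : (D : ℝ) ≠ 0 := by linarith
      have h3 : 1 / ((D : ℝ) * y n) = (1 / y n) / D := by field_simp
      rw [h3, h2]
      push_cast
      field_simp
  have hz01 : ∀ n, 0 < z n ∧ z n < 1 := by
    intro n
    have hy0 := (hy n).1
    rcases Nat.even_or_odd n with hn | hn
    · simp only [z, hn, if_true]
      refine ⟨by positivity, ?_⟩
      rw [div_lt_one (by linarith)]
      linarith [(hy n).2]
    · have hn0 : ¬ Even n := Nat.not_even_iff_odd.2 hn
      have h2 := hr n
      simp only [z, A, hn0, if_false] at h2 ⊢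
      refine ⟨by positivity, ?_⟩
      have h3 : (D : ℝ) < 1 / y n := by
        rw [h2]
        push_cast
        have : (0 : ℝ) ≤ n := Nat.cast_nonneg n
        have h4 := (hy (n + 1)).1
        nlinarith
      rw [lt_div_iff₀ hy0] at h3
      exact h3
  -- the second number
  let A'' : ℕ → ℕ := fun n => if n = 0 then D + d * B.q' else A' n
  let z' : ℕ → ℝ := fun n => if n = 0 then 1 / ((D : ℝ) + d * B.q' + z 1) else z n
  have hqq : (0 : ℝ) ≤ d * B.q' := by positivity
  have hz'01 : ∀ n, 0 < z' n ∧ z' n < 1 := by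
    intro n
    by_cases hn : n = 0
    · simp only [z', hn, if_true]
      have := (hz01 1).1
      refine ⟨by positivity, ?_⟩
      rw [div_lt_one (by linarith)]
      linarith
    · simp only [z', hn, if_false]
      exact hz01 n
  have hz' : ∀ n, 1 / z' n = A'' n + z' (n + 1) := by
    intro n
    by_cases hn : n = 0
    · subst hn
      simp only [z', A'', if_true, zero_add, one_ne_zero, if_false, one_div_one_div]
      push_cast
      ring
    · simp only [z', A'', hn, Nat.succ_ne_zero, if_false]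
      exact hz n
  have hA''ge : ∀ n, n ≤ A'' n := by
    intro n
    simp only [A'']
    split_ifs with h
    · omega
    · have := hA'ge n; omega
  -- the first number
  have hphi := hB.val (y 0) (hy 0).1.le (hy 0).2.le
  refine ⟨phi B.L (y 0), z' 0, phi_Ioo hB.pos (hy 0).1 (hy 0).2, hz'01 0, ?_, ?_, ?_⟩
  · rw [← tendsto_add_atTop_iff_nat B.L.length]
    have e : (fun n : ℕ => ⌊1 / (T^[n + B.L.length] (phi B.L (y 0)))⌋) =
        fun n : ℕ => ⌊1 / (T^[n] (y 0))⌋ := by
      funext n
      rw [Function.iterate_add_apply, T_iter_phi hB.pos (hy 0).1 (hy 0).2]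
    rw [e]
    exact tendsto_of_tails A y hy hr
      (tendsto_atTop_mono (fun n => (Nat.le_succ n).trans (hAge n)) tendsto_id)
  · exact tendsto_of_tails A'' z' hz'01 hz' (tendsto_atTop_mono hA''ge tendsto_id)
  · rw [hphi, hc, he]
    have h2 := hr 0
    simp only [A, Even.zero, if_true, zero_add] at h2
    have hy0 := (hy 0).1
    have hz1 : z 1 = D * y 1 := by
      have : ¬ Even 1 := by decide
      simp only [z, this, if_false]
    simp only [z', if_true, hz1]
    have hy1 : y 1 = 1 / y 0 - 1 := by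
      rw [h2]; push_cast; ring
    rw [hy1]
    have hden : (0 : ℝ) < d + y 0 * B.q' := by
      have : 0 ≤ y 0 * B.q' := by positivity
      linarith
    have hDd : (D : ℝ) = d * d := by rw [hD]; push_cast; ring
    have e3 : (D : ℝ) + d * B.q' + D * (1 / y 0 - 1) = d * (d + y 0 * B.q') / y 0 := by
      rw [hDd]
      field_simp
      ring
    rw [e3, one_div_div]
    ring

theorem main : ∀ x : ℝ, 0 < x → x ≤ 1 →
    ∃ g₁ g₂ : ℝ, g₁ ∈ Ioo (0 : ℝ) 1 ∧ g₂ ∈ Ioo (0 : ℝ) 1 ∧
      Tendsto (fun n : ℕ => ⌊1 / (T^[n] g₁)⌋) atTop atTop ∧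
      Tendsto (fun n : ℕ => ⌊1 / (T^[n] g₂)⌋) atTop atTop ∧ x = g₁ + g₂ := by
  intro x h0 h1
  by_cases hx : Irrational x
  · have : x < 1 := lt_of_le_of_ne h1 (by rintro rfl; exact not_irrational_one hx)
    exact irrational_case hx h0 this
  · have : ∃ r : ℚ, (r : ℝ) = x := by
      unfold Irrational at hx
      simpa using hx
    exact rational_case this h0 h1

end Pool.Agent.HS37.GG
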