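import Pool.Agent.HS37.GG.Basic

/-! The two-branch algorithm. -/

set_option autoImplicit false

namespace Pool.Agent.HS37.GG

open Set

/-- a finite continued fraction with its value `c`, the last two denominators `q, q'` and the sign `e` -/
structure Br where
  L : List ℕ
  c : ℝ
  q : ℕ
  q' : ℕ
  e : ℝ

/-- the data belong to the list -/
structure Br.Good (B : Br) : Prop where
  pos : ∀ a ∈ B.L, 1 ≤ a
  q_pos : 1 ≤ B.q
  q_le : B.q' ≤ B.q
  e_cases : B.e = 1 ∨ B.e = -1
  rat : ∃ r : ℚ, B.c = r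
  val : ∀ τ : ℝ, 0 ≤ τ → τ ≤ 1 → phi B.L τ = B.c + B.e * τ / (B.q * (B.q + τ * B.q'))

/-- appending a quotient -/
noncomputable def Br.app (B : Br) (a : ℕ) : Br where
  L := B.L ++ [a]
  c := B.c + B.e / (B.q * (a * B.q + B.q' : ℕ))
  q := a * B.q + B.q'
  q' := B.q
  e := -B.e

/-- the empty list -/
noncomputable def Br.nil : Br where
  L := []
  c := 0
  q := 1
  q' := 0
  e := 1

lemma Br.nil_good : Br.nil.Good where
  pos := by simp [Br.nil]
  q_pos := le_rfl
  q_le := by simp [Br.nil]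
  e_cases := Or.inl rfl
  rat := ⟨0, by simp [Br.nil]⟩
  val := by
    intro τ _ _
    simp [Br.nil, phi]

lemma Br.Good.e_sq {B : Br} (h : B.Good) : B.e * B.e = 1 := by
  rcases h.e_cases with h | h <;> rw [h] <;> norm_num

lemma Br.Good.app {B : Br} (h : B.Good) {a : ℕ} (ha : 1 ≤ a) : (B.app a).Good where
  pos := by
    intro b hb
    rcases List.mem_append.1 hb with h1 | h1
    · exact h.pos b h1
    · rw [List.mem_singleton] at h1; omega
  q_pos := by
    show 1 ≤ a * B.q + B.q'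
    have := Nat.mul_le_mul ha h.q_pos
    omega
  q_le := by
    show B.q ≤ a * B.q + B.q'
    have := Nat.mul_le_mul_right B.q ha
    omega
  e_cases := by
    show -B.e = 1 ∨ -B.e = -1
    rcases h.e_cases with h | h <;> rw [h] <;> norm_num
  rat := by
    obtain ⟨r, hr⟩ := h.rat
    rcases h.e_cases with he | he
    · refine ⟨r + 1 / (B.q * (a * B.q + B.q' : ℕ)), ?_⟩
      show B.c + B.e / (B.q * (a * B.q + B.q' : ℕ)) = _
      rw [hr, he]; push_cast; ring
    · refine ⟨r - 1 / (B.q * (a * B.q + B.q' : ℕ)), ?_⟩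
      show B.c + B.e / (B.q * (a * B.q + B.q' : ℕ)) = _
      rw [hr, he]; push_cast; ring
  val := by
    intro τ h0 h1
    show phi (B.L ++ [a]) τ = B.c + B.e / (B.q * (a * B.q + B.q' : ℕ)) +
      (-B.e) * τ / ((a * B.q + B.q' : ℕ) * ((a * B.q + B.q' : ℕ) + τ * B.q))
    have ha' : (1 : ℝ) ≤ a := by exact_mod_cast ha
    have hq : (1 : ℝ) ≤ B.q := by exact_mod_cast h.q_pos
    have hq' : (0 : ℝ) ≤ B.q' := Nat.cast_nonneg _
    rw [phi_append]
    have e1 : phi [a] τ = 1 / (a + τ) := rfl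
    have h2 : (0 : ℝ) < a + τ := by linarith
    rw [e1, h.val _ (by positivity) (by rw [div_le_one h2]; linarith)]
    push_cast
    have h3 : (0 : ℝ) < a * B.q + B.q' := by nlinarith
    have h4 : (0 : ℝ) < a * B.q + B.q' + τ * B.q := by nlinarith
    have h5 : (0 : ℝ) < B.q + 1 / (a + τ) * B.q' := by
      have : 0 ≤ 1 / (a + τ) * B.q' := by positivity
      linarith
    have h6 : (B.q : ℝ) + 1 / (a + τ) * B.q' = (a * B.q + B.q' + τ * B.q) / (a + τ) := by
      field_simp; ring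
    rw [h6]
    have hq0 : (B.q : ℝ) ≠ 0 := by linarith
    field_simp
    ring

/-- `B'` is obtained from `B` by appending a nonempty list of quotients `≥ m` -/
def Ext (m : ℕ) (B B' : Br) : Prop :=
  ∃ b : List ℕ, b ≠ [] ∧ (∀ a ∈ b, m ≤ a) ∧ B'.L = B.L ++ b

/-- the invariant: `A` is refined next, `t = x - c_A - c_B` has the sign `e_A`, and
`ρ = 1 / (q_A q_B |t|)` satisfies `ρ ≥ k + 4` if the signs of `A`, `B` agree and `ρ ≥ k + 5` otherwise -/
structure Inv (x : ℝ) (k : ℕ) (A B : Br) : Prop where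
  gA : A.Good
  gB : B.Good
  q_le : A.q ≤ B.q
  pos : 0 < A.e * (x - A.c - B.c)
  rho : A.q * B.q * (A.e * (x - A.c - B.c)) * (k + 4) ≤ 1
  rho' : B.e = -A.e → A.q * B.q * (A.e * (x - A.c - B.c)) * (k + 5) ≤ 1

lemma Br.Good.irr {x : ℝ} (hx : Irrational x) {A B : Br} (hA : A.Good) (hB : B.Good) :
    x - A.c - B.c ≠ 0 := by
  intro h
  obtain ⟨r, hr⟩ := hA.rat
  obtain ⟨s, hs⟩ := hB.rat
  apply hx
  exact ⟨r + s, by push_cast; rw [← hr, ← hs]; linarith⟩

end Pool.Agent.HS37.GG
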