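import Pool.Agent.HS37.GG.Step

/-! One step of the algorithm. -/

set_option autoImplicit false

namespace Pool.Agent.HS37.GG

open Set

/-- choice of the quotient -/
lemma exists_quot {q q' : ℕ} (hq : 1 ≤ q) (hq' : q' ≤ q) {u : ℝ} (hu : 0 < u) {c : ℕ}
    (hc : (q : ℝ) * q * u * c ≤ 1) :
    ∃ a : ℕ, c ≤ a + 1 ∧ (q : ℝ) * u * (a * q + q' : ℕ) ≤ 1 ∧
      1 < (q : ℝ) * u * ((a + 1) * q + q' : ℕ) ∨ (c ≤ 1) := by
  by_cases hc1 : c ≤ 1
  · exact ⟨0, Or.inr hc1⟩
  have hq0 : (1 : ℝ) ≤ q := by exact_mod_cast hq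
  have hq1 : (q' : ℝ) ≤ q := by exact_mod_cast hq'
  have hc2 : (2 : ℝ) ≤ c := by exact_mod_cast (by omega : 2 ≤ c)
  have hqu : 0 < (q : ℝ) * u := by positivity
  set y : ℝ := (1 / (q * u) - q') / q with hy
  have hyq : y * q = 1 / (q * u) - q' := by rw [hy]; field_simp
  have h1 : (c : ℝ) * q ≤ 1 / (q * u) := by
    rw [le_div_iff₀ hqu]; linarith
  have hyc : (c : ℝ) - 1 ≤ y := by
    have : ((c : ℝ) - 1) * q ≤ y * q := by rw [hyq]; linarith
    exact le_of_mul_le_mul_right this (by linarith)
  have hy0 : 0 ≤ y := by linarith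
  refine ⟨⌊y⌋₊, Or.inl ⟨?_, ?_, ?_⟩⟩
  · have : c - 1 ≤ ⌊y⌋₊ := Nat.le_floor (by rw [Nat.cast_sub (by omega)]; push_cast; exact hyc)
    omega
  · have h2 := Nat.floor_le hy0
    have h3 : ((⌊y⌋₊ * q + q' : ℕ) : ℝ) ≤ 1 / (q * u) := by
      push_cast
      nlinarith
    calc (q : ℝ) * u * (⌊y⌋₊ * q + q' : ℕ) ≤ q * u * (1 / (q * u)) :=
          mul_le_mul_of_nonneg_left h3 hqu.le
      _ = 1 := by field_simp
  · have h2 := Nat.lt_floor_add_one y
    have h3 : 1 / (q * u) < (((⌊y⌋₊ + 1) * q + q' : ℕ) : ℝ) := by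
      push_cast
      nlinarith
    calc (1 : ℝ) = q * u * (1 / (q * u)) := by field_simp
      _ < q * u * ((⌊y⌋₊ + 1) * q + q' : ℕ) := mul_lt_mul_of_pos_left h3 hqu

lemma exists_quot' {q q' : ℕ} (hq : 1 ≤ q) (hq' : q' ≤ q) {u : ℝ} (hu : 0 < u) {c : ℕ} (hc2 : 2 ≤ c)
    (hc : (q : ℝ) * q * u * c ≤ 1) :
    ∃ a : ℕ, c ≤ a + 1 ∧ (q : ℝ) * u * (a * q + q' : ℕ) ≤ 1 ∧
      1 < (q : ℝ) * u * ((a + 1) * q + q' : ℕ) := by
  obtain ⟨a, h⟩ := exists_quot hq hq' hu hc
  rcases h with h | h
  · exact ⟨a, h⟩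
  · omega

lemma app_diff {A : Br} (hA : A.Good) (a : ℕ) (x c : ℝ) :
    A.e * (x - (A.app a).c - c) = A.e * (x - A.c - c) - 1 / (A.q * (a * A.q + A.q' : ℕ)) := by
  have h := hA.e_sq
  show A.e * (x - (A.c + A.e / (A.q * (a * A.q + A.q' : ℕ))) - c) = _
  have e1 : A.e * (x - (A.c + A.e / (A.q * (a * A.q + A.q' : ℕ))) - c) =
      A.e * (x - A.c - c) - A.e * A.e * (1 / (A.q * (a * A.q + A.q' : ℕ))) := by ring
  rw [e1, h, one_mul]

/-- one step of the algorithm -/
theorem step {x : ℝ} (hx : Irrational x) {k : ℕ} {A B : Br} (h : Inv x k A B) :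
    ∃ A' : Br, Inv x (k + 1) B A' ∧ Ext ((k + 2) / 2) A A' := by
  have hA := h.gA
  have hB := h.gB
  set u : ℝ := A.e * (x - A.c - B.c) with hu
  have hu0 : 0 < u := h.pos
  have hq : (1 : ℝ) ≤ A.q := by exact_mod_cast hA.q_pos
  have hs : (A.q : ℝ) ≤ B.q := by exact_mod_cast h.q_le
  have hq' : (A.q' : ℝ) ≤ A.q := by exact_mod_cast hA.q_le
  have hq'0 : (0 : ℝ) ≤ A.q' := Nat.cast_nonneg _
  have hk : (0 : ℝ) ≤ k := Nat.cast_nonneg _
  have hrho := h.rho
  have hqsu : 0 < (A.q : ℝ) * B.q * u := by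
    have : (0 : ℝ) < B.q := by linarith
    positivity
  -- the first quotient
  have hc : (A.q : ℝ) * A.q * u * ((k + 4 : ℕ) : ℝ) ≤ 1 := by
    push_cast
    have : (A.q : ℝ) * A.q * u ≤ A.q * B.q * u := by
      apply mul_le_mul_of_nonneg_right _ hu0.le
      exact mul_le_mul_of_nonneg_left hs (by linarith)
    have h2 : (A.q : ℝ) * A.q * u * (k + 4) ≤ A.q * B.q * u * (k + 4) :=
      mul_le_mul_of_nonneg_right this (by linarith)
    linarith
  obtain ⟨a, ha1, ha2, ha3⟩ := exists_quot' hA.q_pos hA.q_le hu0 (c := k + 4) (by omega) hc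
  have ha0 : 1 ≤ a := by omega
  set Q : ℕ := a * A.q + A.q' with hQ
  have hQ1 : (((a + 1) * A.q + A.q' : ℕ) : ℝ) = Q + A.q := by
    rw [hQ]; push_cast; ring
  rw [hQ1] at ha3
  have hQq : (A.q : ℝ) ≤ Q := by
    have : A.q ≤ Q := by
      have := Nat.mul_le_mul_right A.q ha0
      rw [hQ]; omega
    exact_mod_cast this
  -- the sign of `B`
  by_cases hsg : B.e = -A.e
  · -- the signs are different
    have hirr := (hA.app ha0).irr hx hB
    have hd := app_diff hA a x B.c
    rw [← hu, ← hQ] at hd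
    have hQ0 : (0 : ℝ) < A.q * Q := mul_pos (by linarith) (by linarith)
    have hup : 0 < 1 / (A.q * Q : ℝ) - u := by
      have h1 : u ≤ 1 / (A.q * Q : ℝ) := by
        rw [le_div_iff₀ hQ0]; linarith
      rcases h1.eq_or_lt with h2 | h2
      · exfalso
        rw [← h2, sub_self] at hd
        rcases mul_eq_zero.1 hd with h3 | h3
        · rcases hA.e_cases with h4 | h4 <;> rw [h4] at h3 <;> norm_num at h3
        · exact hirr h3
      · linarith
    have hnew : B.e * (x - B.c - (A.app a).c) = 1 / (A.q * Q : ℝ) - u := by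
      rw [hsg]
      have : x - B.c - (A.app a).c = x - (A.app a).c - B.c := by ring
      rw [this]
      linarith
    have hprod : (B.q : ℝ) * (A.app a).q * (1 / (A.q * Q : ℝ) - u) ≤ A.q * B.q * u := by
      have e1 : (A.app a).q = Q := rfl
      rw [e1]
      have e2 : (B.q : ℝ) * Q * (1 / (A.q * Q : ℝ) - u) = B.q / A.q * (1 - A.q * u * Q) := by
        have : (Q : ℝ) ≠ 0 := by linarith
        have : (A.q : ℝ) ≠ 0 := by linarith
        field_simp
      rw [e2]
      have e3 : (A.q : ℝ) * B.q * u = B.q / A.q * (A.q * u * A.q) := by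
        have : (A.q : ℝ) ≠ 0 := by linarith
        field_simp
      rw [e3]
      apply mul_le_mul_of_nonneg_left _ (by positivity)
      linarith
    refine ⟨A.app a, ⟨hB, hA.app ha0, ?_, ?_, ?_, ?_⟩, ⟨[a], by simp, ?_, rfl⟩⟩
    · -- `B.q ≤ Q`
      show B.q ≤ Q
      have h5 := h.rho' hsg
      rw [← hu] at h5
      have h6 : (B.q : ℝ) ≤ Q := by
        -- `q u (Q + q) > 1 ≥ q s u (k + 5)`
        have h7 : (A.q : ℝ) * u * (B.q * (k + 5)) < A.q * u * (Q + A.q) := by linarith
        have h8 : (B.q : ℝ) * (k + 5) < Q + A.q := lt_of_mul_lt_mul_left h7 (by positivity)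
        have h9 : (B.q : ℝ) * 2 ≤ B.q * (k + 5) :=
          mul_le_mul_of_nonneg_left (by linarith) (by linarith)
        linarith
      exact_mod_cast h6
    · rw [hnew]; exact hup
    · rw [hnew]
      push_cast
      have h5 := h.rho' hsg
      rw [← hu] at h5
      have h6 : (B.q : ℝ) * (A.app a).q * (1 / (A.q * Q : ℝ) - u) * (k + 1 + 4) ≤
          A.q * B.q * u * (k + 1 + 4) := mul_le_mul_of_nonneg_right hprod (by linarith)
      linarith
    · intro h9
      exfalso
      have h10 : (A.app a).e = -A.e := rfl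
      rw [h10, hsg] at h9
      rcases hA.e_cases with h4 | h4 <;> rw [h4] at h9 <;> norm_num at h9
    · intro b hb
      rw [List.mem_singleton] at hb
      omega
  · -- the signs are equal
    have hBe : B.e = A.e := by
      rcases hA.e_cases with h1 | h1
      · rcases hB.e_cases with h2 | h2
        · rw [h1, h2]
        · exact absurd (by rw [h1, h2]) hsg
      · rcases hB.e_cases with h2 | h2
        · exact absurd (by rw [h1, h2]; norm_num) hsg
        · rw [h1, h2]
    set δ : ℝ := 1 - A.q * u * Q with hδ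
    have hδ0 : 0 ≤ δ := by rw [hδ]; linarith
    have hδ1 : δ < A.q * A.q * u := by rw [hδ]; linarith
    by_cases hcase : 2 / ((k : ℝ) + 6) * (A.q * A.q * u) ≤ δ
    · -- take `a + 1`
      have ha0' : 1 ≤ a + 1 := by omega
      have hirr := (hA.app ha0').irr hx hB
      have hd := app_diff hA (a + 1) x B.c
      rw [← hu, hQ1] at hd
      have hQ0 : (0 : ℝ) < A.q * (Q + A.q) := mul_pos (by linarith) (by linarith)
      have hup : 0 < u - 1 / (A.q * (Q + A.q) : ℝ) := by
        have h1 : 1 / (A.q * (Q + A.q) : ℝ) < u := by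
          rw [div_lt_iff₀ hQ0]; linarith
        linarith
      have hnew : B.e * (x - B.c - (A.app (a + 1)).c) = u - 1 / (A.q * (Q + A.q) : ℝ) := by
        rw [hBe, ← hd]
        ring
      have hprod : (B.q : ℝ) * (A.app (a + 1)).q * (u - 1 / (A.q * (Q + A.q) : ℝ)) * (k + 6) ≤ 1 := by
        have e1 : ((A.app (a + 1)).q : ℝ) = Q + A.q := hQ1
        rw [e1]
        have e2 : (B.q : ℝ) * (Q + A.q) * (u - 1 / (A.q * (Q + A.q) : ℝ)) =
            B.q / A.q * (A.q * A.q * u - δ) := by
          have : (Q + A.q : ℝ) ≠ 0 := by linarith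
          have : (A.q : ℝ) ≠ 0 := by linarith
          rw [hδ]
          field_simp
          ring
        rw [e2]
        have e3 : A.q * A.q * u - δ ≤ A.q * A.q * u * ((k + 4) / (k + 6)) := by
          have e4 : (A.q : ℝ) * A.q * u * ((k + 4) / (k + 6)) =
              A.q * A.q * u - 2 / ((k : ℝ) + 6) * (A.q * A.q * u) := by
            field_simp; ring
          rw [e4]; linarith
        calc (B.q : ℝ) / A.q * (A.q * A.q * u - δ) * (k + 6)
            ≤ B.q / A.q * (A.q * A.q * u * ((k + 4) / (k + 6))) * (k + 6) := by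
              apply mul_le_mul_of_nonneg_right _ (by linarith)
              exact mul_le_mul_of_nonneg_left e3 (by positivity)
          _ = A.q * B.q * u * (k + 4) := by
              have : (A.q : ℝ) ≠ 0 := by linarith
              field_simp
          _ ≤ 1 := hrho
      have hpp : 0 ≤ (B.q : ℝ) * (A.app (a + 1)).q * (u - 1 / (A.q * (Q + A.q) : ℝ)) :=
        mul_nonneg (by positivity) hup.le
      refine ⟨A.app (a + 1), ⟨hB, hA.app ha0', ?_, ?_, ?_, ?_⟩, ⟨[a + 1], by simp, ?_, rfl⟩⟩
      · have h6 : (B.q : ℝ) ≤ (A.app (a + 1)).q := by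
          have e1 : ((A.app (a + 1)).q : ℝ) = Q + A.q := hQ1
          rw [e1]
          have h7 : (A.q : ℝ) * u * (B.q * (k + 4)) < A.q * u * (Q + A.q) := by linarith
          have h8 : (B.q : ℝ) * (k + 4) < Q + A.q := lt_of_mul_lt_mul_left h7 (by positivity)
          have h9 : (B.q : ℝ) * 1 ≤ B.q * (k + 4) :=
            mul_le_mul_of_nonneg_left (by linarith) (by linarith)
          linarith
        exact_mod_cast h6
      · rw [hnew]; exact hup
      · rw [hnew]
        push_cast
        have h9 := mul_le_mul_of_nonneg_left (show (k : ℝ) + 1 + 4 ≤ k + 6 by linarith) hpp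
        linarith
      · intro _
        rw [hnew]
        push_cast
        have : (k : ℝ) + 1 + 5 = k + 6 := by ring
        rw [this]
        exact hprod
      · intro b hb
        rw [List.mem_singleton] at hb
        omega
    · -- take `a` and refine `A` once more
      push Not at hcase
      have hA' := hA.app ha0
      have hirr := hA'.irr hx hB
      have hd := app_diff hA a x B.c
      rw [← hu, ← hQ] at hd
      have hQ0 : (0 : ℝ) < A.q * Q := mul_pos (by linarith) (by linarith)
      set v : ℝ := 1 / (A.q * Q : ℝ) - u with hv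
      have hv0 : 0 < v := by
        have h1 : u ≤ 1 / (A.q * Q : ℝ) := by
          rw [le_div_iff₀ hQ0]; linarith
        rcases h1.eq_or_lt with h2 | h2
        · exfalso
          rw [← h2, sub_self] at hd
          rcases mul_eq_zero.1 hd with h3 | h3
          · rcases hA.e_cases with h4 | h4 <;> rw [h4] at h3 <;> norm_num at h3
          · exact hirr h3
        · linarith
      have hA'e : (A.app a).e = -A.e := rfl
      have hA'q : (A.app a).q = Q := rfl
      have hA'q' : (A.app a).q' = A.q := rfl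
      have hv' : (A.app a).e * (x - (A.app a).c - B.c) = v := by
        rw [hA'e, hv]; linarith
      -- `Q v = δ / q`
      have hQv : (Q : ℝ) * v = δ / A.q := by
        have : (Q : ℝ) ≠ 0 := by linarith
        have : (A.q : ℝ) ≠ 0 := by linarith
        rw [hv, hδ]
        field_simp
      have hQv2 : (Q : ℝ) * v < 2 / ((k : ℝ) + 6) * (A.q * u) := by
        rw [hQv, div_lt_iff₀ (by linarith)]
        linarith
      have hc2 : ((A.app a).q : ℝ) * (A.app a).q * v * (((k + 6) / 2 : ℕ) : ℝ) ≤ 1 := by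
        rw [hA'q]
        have h1 : (((k + 6) / 2 : ℕ) : ℝ) ≤ (k + 6) / 2 := by
          have := @Nat.cast_div_le ℝ _ _ _ (k + 6) 2
          push_cast at this
          exact this
        have h2 : (Q : ℝ) * Q * v ≤ 2 / ((k : ℝ) + 6) := by
          have h3 : (Q : ℝ) * (Q * v) ≤ Q * (2 / ((k : ℝ) + 6) * (A.q * u)) :=
            mul_le_mul_of_nonneg_left hQv2.le (by linarith)
          have h4 : (Q : ℝ) * (2 / ((k : ℝ) + 6) * (A.q * u)) = 2 / ((k : ℝ) + 6) * (A.q * u * Q) := by ring
          have h5 : 2 / ((k : ℝ) + 6) * (A.q * u * Q) ≤ 2 / ((k : ℝ) + 6) * 1 :=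
            mul_le_mul_of_nonneg_left ha2 (by positivity)
          linarith
        calc (Q : ℝ) * Q * v * (((k + 6) / 2 : ℕ) : ℝ) ≤ 2 / ((k : ℝ) + 6) * ((k + 6) / 2) :=
              mul_le_mul h2 h1 (Nat.cast_nonneg _) (by positivity)
          _ = 1 := by field_simp
      obtain ⟨b, hb1, hb2, hb3⟩ := exists_quot' hA'.q_pos hA'.q_le hv0 (c := (k + 6) / 2) (by omega) hc2
      have hb0 : 1 ≤ b := by omega
      rw [hA'q, hA'q'] at hb2 hb3
      set P : ℕ := b * Q + A.q with hP
      have hP1 : (((b + 1) * Q + A.q : ℕ) : ℝ) = P + Q := by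
        rw [hP]; push_cast; ring
      rw [hP1] at hb3
      have hPQ : (Q : ℝ) ≤ P := by
        have : Q ≤ P := by
          have := Nat.mul_le_mul_right Q hb0
          rw [hP]; omega
        exact_mod_cast this
      have hA'' := hA'.app hb0
      have hirr2 := hA''.irr hx hB
      have hd2 := app_diff hA' b x B.c
      rw [hv', hA'q, hA'q', ← hP] at hd2
      have hP0 : (0 : ℝ) < Q * P := mul_pos (by linarith) (by linarith)
      have hw0 : 0 < 1 / (Q * P : ℝ) - v := by
        have h1 : v ≤ 1 / (Q * P : ℝ) := by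
          rw [le_div_iff₀ hP0]; linarith
        rcases h1.eq_or_lt with h2 | h2
        · exfalso
          rw [← h2, sub_self] at hd2
          rcases mul_eq_zero.1 hd2 with h3 | h3
          · rcases hA'.e_cases with h4 | h4 <;> rw [h4] at h3 <;> norm_num at h3
          · exact hirr2 h3
        · linarith
      have hA''e : ((A.app a).app b).e = A.e := by
        show -(-A.e) = A.e
        ring
      have hA''q : ((A.app a).app b).q = P := rfl
      have hnew : B.e * (x - B.c - ((A.app a).app b).c) = 1 / (Q * P : ℝ) - v := by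
        rw [hBe]
        rw [hA'e] at hd2
        linarith
      have hprod : (B.q : ℝ) * ((A.app a).app b).q * (1 / (Q * P : ℝ) - v) ≤ B.q * (Q * v) := by
        rw [hA''q]
        have e2 : (B.q : ℝ) * P * (1 / (Q * P : ℝ) - v) = B.q / Q * (1 - Q * v * P) := by
          have : (P : ℝ) ≠ 0 := by linarith
          have : (Q : ℝ) ≠ 0 := by linarith
          field_simp
        have e3 : (B.q : ℝ) * (Q * v) = B.q / Q * (Q * v * Q) := by
          have : (Q : ℝ) ≠ 0 := by linarith
          field_simp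
        rw [e2, e3]
        apply mul_le_mul_of_nonneg_left _ (by positivity)
        linarith
      have hlast : (B.q : ℝ) * (Q * v) * (k + 5) ≤ 1 := by
        have h1 : (B.q : ℝ) * (Q * v) ≤ B.q * (2 / ((k : ℝ) + 6) * (A.q * u)) :=
          mul_le_mul_of_nonneg_left hQv2.le (by linarith)
        have h2 : (B.q : ℝ) * (2 / ((k : ℝ) + 6) * (A.q * u)) * (k + 5) =
            A.q * B.q * u * (k + 4) * (2 * (k + 5) / ((k + 6) * (k + 4))) := by
          field_simp
        have h3 : 2 * ((k : ℝ) + 5) / ((k + 6) * (k + 4)) ≤ 1 := by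
          rw [div_le_one (by positivity)]
          have : ((k : ℝ) + 6) * (k + 4) - 2 * (k + 5) = k * k + 8 * k + 14 := by ring
          have h0 : 0 ≤ (k : ℝ) * k := mul_nonneg hk hk
          linarith
        have h4 : A.q * B.q * u * (k + 4) * (2 * (k + 5) / ((k + 6) * (k + 4))) ≤ 1 * 1 :=
          mul_le_mul hrho h3 (by positivity) zero_le_one
        have h5 : (B.q : ℝ) * (Q * v) * (k + 5) ≤ B.q * (2 / ((k : ℝ) + 6) * (A.q * u)) * (k + 5) :=
          mul_le_mul_of_nonneg_right h1 (by linarith)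
        linarith
      refine ⟨(A.app a).app b, ⟨hB, hA'', ?_, ?_, ?_, ?_⟩, ⟨[a] ++ [b], by simp, ?_, ?_⟩⟩
      · have h6 : (B.q : ℝ) ≤ ((A.app a).app b).q := by
          rw [hA''q]
          -- `Q v (P + Q) > 1`, `Q v ≤ 2/(k+6) q u`
          have h7 : 1 < 2 / ((k : ℝ) + 6) * (A.q * u) * (P + Q) := by
            have : (Q : ℝ) * v * (P + Q) ≤ 2 / ((k : ℝ) + 6) * (A.q * u) * (P + Q) :=
              mul_le_mul_of_nonneg_right hQv2.le (by linarith)
            linarith
          have h8 : ((k : ℝ) + 6) / 2 < A.q * u * (P + Q) := by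
            have h9 : 2 / ((k : ℝ) + 6) * (A.q * u) * (P + Q) = (A.q * u * (P + Q)) / ((k + 6) / 2) := by
              field_simp
            rw [h9, lt_div_iff₀ (by positivity)] at h7
            linarith
          have h9 : (1 : ℝ) < A.q * u * P := by
            have : A.q * u * (P + Q) = A.q * u * P + A.q * u * Q := by ring
            linarith
          have h11 : (A.q : ℝ) * B.q * u * 1 ≤ A.q * B.q * u * (k + 4) :=
            mul_le_mul_of_nonneg_left (by linarith) hqsu.le
          have h12 : (A.q : ℝ) * u * B.q = A.q * B.q * u * 1 := by ring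
          have h10 : A.q * u * B.q ≤ A.q * u * P := by linarith
          exact le_of_mul_le_mul_left h10 (by positivity)
        exact_mod_cast h6
      · rw [hnew]; exact hw0
      · rw [hnew]
        push_cast
        have h6 : (B.q : ℝ) * ((A.app a).app b).q * (1 / (Q * P : ℝ) - v) * (k + 1 + 4) ≤
          B.q * (Q * v) * (k + 1 + 4) := mul_le_mul_of_nonneg_right hprod (by linarith)
        linarith
      · intro h9
        exfalso
        rw [hA''e, hBe] at h9
        rcases hA.e_cases with h4 | h4 <;> rw [h4] at h9 <;> norm_num at h9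
      · intro c hc
        simp only [List.cons_append, List.nil_append, List.mem_cons, List.not_mem_nil, or_false] at hc
        omega
      · show (A.L ++ [a]) ++ [b] = A.L ++ ([a] ++ [b])
        rw [List.append_assoc]

end Pool.Agent.HS37.GG
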